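import Mathlib
import Pool.Agent.Q41.SU.Stm1

/-!
# Project SU (helper41): norms of rational functions, characteristic polynomials
-/

set_option linter.unusedSectionVars false
set_option linter.unusedVariables false

namespace Pool.Agent.Q275.SU

open Finset Polynomial Pool.Agent.Q41.SU

universe u

section norms

variable {k Λ : Type u} [Field k] [NormedField Λ] [IsUltrametricDist Λ] [Algebra k Λ] {s : Λ}

theorem norm_c_le (h : IsAmb k Λ s) (c : k) : ‖algebraMap k Λ c‖ ≤ 1 := by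
  by_cases hc : c = 0
  · rw [hc, map_zero, norm_zero]
    exact zero_le_one
  · rw [h.norm_c c hc]

theorem norm_aeval_le (h : IsAmb k Λ s) {x : Λ} (hx : ‖x‖ ≤ 1) (B : k[X]) :
    ‖aeval x B‖ ≤ 1 := by
  induction B using Polynomial.induction_on' with
  | add p q hp hq =>
    rw [map_add]
    exact (IsUltrametricDist.norm_add_le_max _ _).trans (max_le hp hq)
  | monomial n a =>
    rw [aeval_monomial, norm_mul, norm_pow]
    exact mul_le_one₀ (norm_c_le h a) (by positivity) (pow_le_one₀ (norm_nonneg _) hx)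

theorem norm_s_lt (h : IsAmb k Λ s) : ‖s‖ < 1 := by
  rw [h.norm_s, ← Real.exp_zero]
  exact Real.exp_lt_exp.2 (by norm_num)

theorem s_ne (h : IsAmb k Λ s) : s ≠ 0 := by
  intro h0
  have h1 := h.norm_s
  rw [h0, norm_zero] at h1
  exact (Real.exp_pos _).ne h1

theorem norm_add_small {x y : Λ} (hx : ‖x‖ = 1) (hy : ‖y‖ < 1) : ‖x + y‖ = 1 := by
  rw [IsUltrametricDist.norm_add_eq_max_of_norm_ne_norm (by rw [hx]; exact hy.ne'), hx,
    max_eq_left hy.le]

/-- the value of `B` at `t₀ + s` is `B(t₀)` up to a small error -/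
theorem aeval_close (h : IsAmb k Λ s) (t₀ : k) (B : k[X]) :
    ‖aeval (algebraMap k Λ t₀ + s) B - algebraMap k Λ (B.eval t₀)‖ < 1 := by
  obtain ⟨Q, hQ⟩ := X_sub_C_dvd_sub_C_eval (a := t₀) (p := B)
  have h1 : B = C (B.eval t₀) + (X - C t₀) * Q := by rw [← hQ]; ring
  have h2 : aeval (algebraMap k Λ t₀ + s) B =
      algebraMap k Λ (B.eval t₀) + s * aeval (algebraMap k Λ t₀ + s) Q := by
    conv_lhs => rw [h1]
    rw [map_add, map_mul, map_sub, aeval_X, aeval_C, aeval_C, add_sub_cancel_left]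
  rw [h2, add_sub_cancel_left, norm_mul]
  have h3 : ‖aeval (algebraMap k Λ t₀ + s) Q‖ ≤ 1 := by
    apply norm_aeval_le h
    exact (IsUltrametricDist.norm_add_le_max _ _).trans (max_le (norm_c_le h _) (norm_s_lt h).le)
  calc ‖s‖ * ‖aeval (algebraMap k Λ t₀ + s) Q‖ ≤ ‖s‖ * 1 := by gcongr
  _ < 1 := by rw [mul_one]; exact norm_s_lt h

theorem norm_aeval_unit (h : IsAmb k Λ s) (t₀ : k) {B : k[X]} (hB : B.eval t₀ ≠ 0) :
    ‖aeval (algebraMap k Λ t₀ + s) B‖ = 1 := by
  have h1 := norm_add_small (h.norm_c _ hB) (aeval_close h t₀ B)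
  rwa [add_sub_cancel] at h1

/-- the norm of a polynomial in `t` at a place above `t₀` -/
theorem norm_aeval (h : IsAmb k Λ s) (t₀ : k) {A : k[X]} (hA : A ≠ 0) :
    ‖aeval (algebraMap k Λ t₀ + s) A‖ = Real.exp (-(A.rootMultiplicity t₀ : ℝ)) := by
  obtain ⟨B, hB, hnd⟩ := A.exists_eq_pow_rootMultiplicity_mul_and_not_dvd hA t₀
  have hB0 : B.eval t₀ ≠ 0 := by
    intro h0
    exact hnd (dvd_iff_isRoot.2 h0)
  have h1 : aeval (algebraMap k Λ t₀ + s) A =
      s ^ A.rootMultiplicity t₀ * aeval (algebraMap k Λ t₀ + s) B := by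
    conv_lhs => rw [hB]
    rw [map_mul, map_pow, map_sub, aeval_X, aeval_C, add_sub_cancel_left]
  rw [h1, norm_mul, norm_pow, h.norm_s, norm_aeval_unit h t₀ hB0, mul_one, ← Real.exp_nat_mul]
  congr 1
  ring

/-- the norm of a polynomial in `t` at a place above infinity -/
theorem norm_aeval_inf (h : IsAmb k Λ s) {A : k[X]} (hA : A ≠ 0) :
    ‖aeval s⁻¹ A‖ = Real.exp (A.natDegree : ℝ) := by
  have hs := s_ne h
  let _ : Invertible s⁻¹ := invertibleOfNonzero (inv_ne_zero hs)
  have h1 := eval₂_reverse_mul_pow (algebraMap k Λ) s⁻¹ A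
  rw [invOf_eq_inv, inv_inv] at h1
  have h2 : ‖eval₂ (algebraMap k Λ) s A.reverse‖ = 1 := by
    have h3 : (A.reverse).eval 0 ≠ 0 := by
      rw [← coeff_zero_eq_eval_zero, coeff_zero_reverse]
      exact leadingCoeff_ne_zero.2 hA
    have h4 := norm_aeval_unit h 0 h3
    rw [map_zero, zero_add, aeval_def] at h4
    exact h4
  rw [aeval_def, ← h1, norm_mul, h2, one_mul, norm_pow, norm_inv, h.norm_s, ← Real.exp_neg,
    neg_neg, ← Real.exp_nat_mul, mul_one]

theorem aeval_ne (h : IsAmb k Λ s) (t₀ : k) {A : k[X]} (hA : A ≠ 0) :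
    aeval (algebraMap k Λ t₀ + s) A ≠ 0 := by
  intro h0
  have h1 := norm_aeval h t₀ hA
  rw [h0, norm_zero] at h1
  exact (Real.exp_pos _).ne h1

theorem aeval_inf_ne (h : IsAmb k Λ s) {A : k[X]} (hA : A ≠ 0) : aeval s⁻¹ A ≠ 0 := by
  intro h0
  have h1 := norm_aeval_inf h hA
  rw [h0, norm_zero] at h1
  exact (Real.exp_pos _).ne h1

theorem transc (h : IsAmb k Λ s) (t₀ : k) : Transcendental k (algebraMap k Λ t₀ + s) := by
  rw [transcendental_iff]
  intro p hp
  by_contra hne
  exact aeval_ne h t₀ hne hp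

theorem transc_inf (h : IsAmb k Λ s) : Transcendental k s⁻¹ := by
  rw [transcendental_iff]
  intro p hp
  by_contra hne
  exact aeval_inf_ne h hne hp

omit [Algebra k Λ] in
/-- integral elements -/
theorem norm_le_one_of_root (P : Λ[X]) (hP : P.Monic) (hc : ∀ i, ‖P.coeff i‖ ≤ 1) {z : Λ}
    (hz : P.eval z = 0) : ‖z‖ ≤ 1 := by
  by_contra hcon
  push Not at hcon
  rw [eval_eq_sum_range, sum_range_succ, hP.coeff_natDegree, one_mul] at hz
  have h1 : z ^ P.natDegree = -∑ i ∈ range P.natDegree, P.coeff i * z ^ i :=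
    eq_neg_of_add_eq_zero_right hz
  by_cases hn : P.natDegree = 0
  · rw [hn, range_zero, sum_empty, pow_zero, neg_zero] at h1
    exact one_ne_zero h1
  have h2 : ‖∑ i ∈ range P.natDegree, P.coeff i * z ^ i‖ ≤ ‖z‖ ^ (P.natDegree - 1) := by
    apply IsUltrametricDist.norm_sum_le_of_forall_le_of_nonneg (by positivity)
    intro i hi
    rw [norm_mul, norm_pow]
    calc ‖P.coeff i‖ * ‖z‖ ^ i ≤ 1 * ‖z‖ ^ (P.natDegree - 1) := by
          gcongr
          · exact hc i
          · exact hcon.le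
          · have := mem_range.1 hi
            omega
    _ = _ := one_mul _
  have h3 : ‖z‖ ^ P.natDegree ≤ ‖z‖ ^ (P.natDegree - 1) := by
    rw [← norm_pow, h1, norm_neg]
    exact h2
  have h4 : ‖z‖ ^ (P.natDegree - 1) < ‖z‖ ^ P.natDegree :=
    pow_lt_pow_right₀ hcon (by omega)
  exact absurd h3 (not_le.2 h4)

omit [Algebra k Λ] in
theorem coeff_mul_le {P Q : Λ[X]} (hP : ∀ i, ‖P.coeff i‖ ≤ 1) (hQ : ∀ i, ‖Q.coeff i‖ ≤ 1)
    (i : ℕ) : ‖(P * Q).coeff i‖ ≤ 1 := by
  rw [coeff_mul]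
  apply IsUltrametricDist.norm_sum_le_of_forall_le_of_nonneg zero_le_one
  intro x _
  rw [norm_mul]
  exact mul_le_one₀ (hP _) (norm_nonneg _) (hQ _)

omit [Algebra k Λ] in
theorem coeff_prod_le {ι : Type*} (S : Finset ι) (f : ι → Λ) (hf : ∀ i ∈ S, ‖f i‖ ≤ 1) (n : ℕ) :
    ‖(∏ i ∈ S, (X - C (f i))).coeff n‖ ≤ 1 := by
  classical
  induction S using Finset.induction_on generalizing n with
  | empty =>
    rw [prod_empty, coeff_one]
    split_ifs
    · rw [norm_one]
    · rw [norm_zero]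
      exact zero_le_one
  | insert a S ha ih =>
    rw [prod_insert ha]
    apply coeff_mul_le
    · intro i
      rw [coeff_sub, coeff_X, coeff_C, sub_eq_add_neg]
      refine (IsUltrametricDist.norm_add_le_max _ _).trans (max_le ?_ ?_)
      · split_ifs
        · rw [norm_one]
        · rw [norm_zero]
          exact zero_le_one
      · rw [norm_neg]
        split_ifs
        · exact hf a (mem_insert_self _ _)
        · rw [norm_zero]
          exact zero_le_one
    · intro i
      exact ih (fun j hj => hf j (mem_insert_of_mem hj)) i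

end norms

section gal

variable {k E : Type u} [Field k] [Field E] [Algebra k E] {t : E} {G : Subgroup (E ≃ₐ[k] E)}
  [Fintype G]

/-- the characteristic polynomial -/
noncomputable def cp (G : Subgroup (E ≃ₐ[k] E)) [Fintype G] (x : E) : E[X] :=
  ∏ g : G, (X - C ((g : E ≃ₐ[k] E) x))

theorem cp_monic (x : E) : (cp G x).Monic :=
  monic_prod_of_monic _ _ fun g _ => monic_X_sub_C _

theorem cp_natDegree (x : E) : (cp G x).natDegree = Fintype.card G := by
  unfold cp
  rw [natDegree_prod_of_monic _ _ fun g _ => monic_X_sub_C _]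
  simp

theorem cp_eval (x : E) {g : E ≃ₐ[k] E} (hg : g ∈ G) : (cp G x).eval (g x) = 0 := by
  unfold cp
  rw [eval_prod, prod_eq_zero (mem_univ (⟨g, hg⟩ : G))]
  rw [eval_sub, eval_X, eval_C, sub_self]

theorem cp_eval_self (x : E) : (cp G x).eval x = 0 := by
  have h := cp_eval (G := G) x (one_mem G)
  exact h

theorem cp_map (x : E) {g : E ≃ₐ[k] E} (hg : g ∈ G) :
    (cp G x).map (g : E →+* E) = cp G x := by
  unfold cp
  rw [Polynomial.map_prod]
  refine Fintype.prod_equiv (Equiv.mulLeft (⟨g, hg⟩ : G)) _ _ fun h => ?_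
  rw [Polynomial.map_sub, map_X, map_C]
  rfl

theorem cp_coeff_fix (x : E) {g : E ≃ₐ[k] E} (hg : g ∈ G) (i : ℕ) :
    g ((cp G x).coeff i) = (cp G x).coeff i := by
  have h := congrArg (fun P => P.coeff i) (cp_map x hg)
  simp only [coeff_map] at h
  exact h

theorem cp_coeff (hG : IsGal k t G) (x : E) (i : ℕ) :
    ∃ r q : k[X], q ≠ 0 ∧ (cp G x).coeff i = aeval t r / aeval t q :=
  hG.rat _ fun g hg => cp_coeff_fix x hg i

theorem aeval_t_ne (hG : IsGal k t G) {q : k[X]} (hq : q ≠ 0) : aeval t q ≠ 0 := by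
  intro h
  exact hq ((transcendental_iff.1 hG.trans) q h)

/-- a common denominator -/
theorem common (hG : IsGal k t G) (x : E) :
    ∃ (b : k[X]) (a : ℕ → k[X]), b ≠ 0 ∧ ∀ i, (cp G x).coeff i * aeval t b = aeval t (a i) := by
  classical
  choose r q hq h using fun i => cp_coeff hG x i
  refine ⟨∏ j ∈ range (Fintype.card G + 1), q j, fun i =>
    if i ∈ range (Fintype.card G + 1) then
      r i * ∏ j ∈ (range (Fintype.card G + 1)).erase i, q j else 0,
    prod_ne_zero_iff.2 fun j _ => hq j, fun i => ?_⟩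
  by_cases hi : i ∈ range (Fintype.card G + 1)
  · simp only [if_pos hi]
    rw [h, ← mul_prod_erase _ _ hi, map_mul, map_mul]
    field_simp [aeval_t_ne hG (hq i)]
  · simp only [if_neg hi]
    rw [coeff_eq_zero_of_natDegree_lt, zero_mul, map_zero]
    rw [cp_natDegree]
    rw [mem_range] at hi
    omega

end gal

end Pool.Agent.Q275.SU
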