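import Mathlib
import Pool.Agent.Q275.SU.Nrm

/-!
# Project SU (helper41): jobs F2, F4, F5, F6, F7
-/

set_option linter.unusedSectionVars false
set_option linter.unusedVariables false

namespace Pool.Agent.Q275.SU

open Finset Polynomial Pool.Agent.Q41.SU
open scoped nonZeroDivisors

universe u

theorem coord : S_coord := by
  intro k E _ _ _ t G t₁ h
  obtain ⟨w, hw⟩ : ∃ w, w = (t - algebraMap k E t₁)⁻¹ := ⟨_, rfl⟩
  have ht : t = algebraMap k E t₁ + w⁻¹ := by rw [hw, inv_inv, add_sub_cancel]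
  have htr : Transcendental k w := by
    intro ha
    apply h.trans
    rw [ht]
    exact (isAlgebraic_algebraMap t₁).add ha.inv
  have hw0 : w ≠ 0 := by
    rintro h0
    rw [h0] at htr
    exact htr isAlgebraic_zero
  rw [← hw]
  refine ⟨htr, ?_, ?_⟩
  · intro g hg
    rw [hw, map_inv₀, map_sub, h.fix g hg, AlgEquiv.commutes]
  · have key : ∀ r : k[X], ∃ (R : k[X]), aeval t r * w ^ r.natDegree = aeval w R ∧
        (r ≠ 0 → R ≠ 0) := by
      intro r
      refine ⟨(r.comp (X + C t₁)).reverse, ?_, ?_⟩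
      · let _ : Invertible w⁻¹ := invertibleOfNonzero (inv_ne_zero hw0)
        have h1 := eval₂_reverse_mul_pow (algebraMap k E) w⁻¹ (r.comp (X + C t₁))
        rw [invOf_eq_inv, inv_inv, ← aeval_def, ← aeval_def, aeval_comp, natDegree_comp] at h1
        rw [map_add, aeval_X, aeval_C, add_comm w⁻¹, ← ht, natDegree_X_add_C, mul_one] at h1
        rw [← h1, mul_assoc, ← mul_pow, inv_mul_cancel₀ hw0, one_pow, mul_one]
      · intro hr h0
        rw [reverse_eq_zero, comp_eq_zero_iff] at h0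
        rcases h0 with h0 | h0
        · exact hr h0
        · have h2 := congrArg natDegree h0.2
          rw [natDegree_X_add_C, natDegree_C] at h2
          omega
    intro x hx
    obtain ⟨r, q, hq, hxe⟩ := h.rat x hx
    obtain ⟨R, hR, -⟩ := key r
    obtain ⟨Q, hQ, hQ0⟩ := key q
    refine ⟨R * X ^ q.natDegree, Q * X ^ r.natDegree,
      mul_ne_zero (hQ0 hq) (pow_ne_zero _ X_ne_zero), ?_⟩
    rw [map_mul, map_mul, map_pow, map_pow, aeval_X, ← hR, ← hQ, hxe]
    have h1 : aeval t q ≠ 0 := fun h0 => hq ((transcendental_iff.1 h.trans) q h0)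
    field_simp

/-- extension of embeddings -/
theorem exists_emb (k E Λ : Type u) [Field k] [Field E] [Algebra k E] [Field Λ]
    [IsAlgClosed Λ] [Algebra k Λ] (t : E) (G : Subgroup (E ≃ₐ[k] E)) [Fintype G]
    (hG : IsGal k t G) (z : Λ) (hz : Transcendental k z) : ∃ ι : E →ₐ[k] Λ, ι t = z := by
  classical
  have h1 : ∀ {F : Type u} [Field F] [Algebra k F] (y : F), Transcendental k y →
      k[X]⁰ ≤ F⁰.comap (aeval y : k[X] →ₐ[k] F) := by
    intro F _ _ y hy p hp
    rw [Submonoid.mem_comap, mem_nonZeroDivisors_iff_ne_zero]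
    intro h0
    exact (nonZeroDivisors.ne_zero hp) ((transcendental_iff.1 hy) p h0)
  let f₁ : RatFunc k →ₐ[k] E := RatFunc.liftAlgHom (aeval t) (h1 t hG.trans)
  let f₂ : RatFunc k →ₐ[k] Λ := RatFunc.liftAlgHom (aeval z) (h1 z hz)
  have e1 : ∀ p : k[X], f₁ (algebraMap k[X] (RatFunc k) p) = aeval t p := by
    intro p
    have h2 := RatFunc.liftAlgHom_apply_div (φ := (aeval t : k[X] →ₐ[k] E))
      (hφ := h1 t hG.trans) p 1
    rw [map_one, map_one, div_one, div_one] at h2
    exact h2
  have e2 : ∀ p : k[X], f₂ (algebraMap k[X] (RatFunc k) p) = aeval z p := by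
    intro p
    have h2 := RatFunc.liftAlgHom_apply_div (φ := (aeval z : k[X] →ₐ[k] Λ))
      (hφ := h1 z hz) p 1
    rw [map_one, map_one, div_one, div_one] at h2
    exact h2
  let _ : Algebra (RatFunc k) E := f₁.toRingHom.toAlgebra
  let _ : Algebra (RatFunc k) Λ := f₂.toRingHom.toAlgebra
  have halg : Algebra.IsAlgebraic (RatFunc k) E := by
    constructor
    intro x
    obtain ⟨b, a, hb, hab⟩ := common hG x
    refine ⟨∑ i ∈ range (Fintype.card G + 1), C (algebraMap k[X] (RatFunc k) (a i)) * X ^ i,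
      ?_, ?_⟩
    · intro h0
      have h2 := congrArg (fun P => P.coeff (Fintype.card G)) h0
      simp only [finsetSum_coeff, coeff_C_mul, coeff_X_pow, coeff_zero] at h2
      rw [sum_eq_single (Fintype.card G)] at h2
      · rw [if_pos rfl, mul_one] at h2
        have h3 : a (Fintype.card G) = 0 := by
          apply RatFunc.algebraMap_injective k
          rw [h2, map_zero]
        have h4 := hab (Fintype.card G)
        rw [h3, map_zero] at h4
        have h5 : (cp G x).coeff (Fintype.card G) = 1 := by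
          have h6 := (cp_monic (G := G) x).coeff_natDegree
          rwa [cp_natDegree] at h6
        rw [h5, one_mul] at h4
        exact aeval_t_ne hG hb h4
      · intro i _ hi
        rw [if_neg (Ne.symm hi), mul_zero]
      · intro h3
        exfalso
        apply h3
        rw [mem_range]
        omega
    · rw [map_sum]
      have h2 : ∀ i, aeval x (C (algebraMap k[X] (RatFunc k) (a i)) * X ^ i) =
          aeval t b * ((cp G x).coeff i * x ^ i) := by
        intro i
        rw [map_mul, aeval_C, map_pow, aeval_X]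
        have h3 : algebraMap (RatFunc k) E (algebraMap k[X] (RatFunc k) (a i)) = aeval t (a i) :=
          e1 (a i)
        rw [h3, ← hab]
        ring
      rw [sum_congr rfl fun i _ => h2 i, ← mul_sum]
      have h3 : ∑ i ∈ range (Fintype.card G + 1), (cp G x).coeff i * x ^ i = (cp G x).eval x := by
        rw [eval_eq_sum_range, cp_natDegree]
      rw [h3, cp_eval_self, mul_zero]
  let L : E →ₐ[RatFunc k] Λ := IsAlgClosed.lift
  have hL : ∀ y, L (f₁ y) = f₂ y := fun y => L.commutes y
  refine ⟨{ L.toRingHom with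
    commutes' := ?_ }, ?_⟩
  · intro c
    change L (algebraMap k E c) = algebraMap k Λ c
    have h2 := hL (algebraMap k[X] (RatFunc k) (C c))
    rw [e1, e2, aeval_C, aeval_C] at h2
    exact h2
  · change L t = z
    have h2 := hL (algebraMap k[X] (RatFunc k) X)
    rw [e1, e2, aeval_X, aeval_X] at h2
    exact h2

theorem emb : S_emb := by
  intro k E Λ _ _ _ _ _ _ _ t s G _ hs hG
  exact ⟨fun t₀ => exists_emb k E Λ t G hG _ (transc hs t₀),
    exists_emb k E Λ t G hG _ (transc_inf hs)⟩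

section

variable {k E Λ : Type u} [Field k] [Field E] [Algebra k E] [NormedField Λ] [IsUltrametricDist Λ]
  [Algebra k Λ] {t : E} {s : Λ} {G : Subgroup (E ≃ₐ[k] E)} [Fintype G]

theorem map_aeval (ι : E →ₐ[k] Λ) (p : k[X]) : ι (aeval t p) = aeval (ι t) p := by
  rw [Polynomial.aeval_algHom_apply]

theorem map_cp (ι : E →ₐ[k] Λ) (x : E) :
    (cp G x).map (ι : E →+* Λ) = ∏ g : G, (X - C (ι ((g : E ≃ₐ[k] E) x))) := by
  unfold cp
  rw [Polynomial.map_prod]
  refine prod_congr rfl fun g _ => ?_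
  rw [Polynomial.map_sub, map_X, map_C]
  rfl

/-- outside the denominators of the coefficients the conjugates are integral -/
theorem fin_le (hs : IsAmb k Λ s) (hG : IsGal k t G) (y : E) :
    {t₀ : k | ∃ ι : E →ₐ[k] Λ, ι t = algebraMap k Λ t₀ + s ∧ ¬ ‖ι y‖ ≤ 1}.Finite := by
  classical
  obtain ⟨b, a, hb, hab⟩ := common hG y
  refine (b.roots.toFinset.finite_toSet).subset ?_
  rintro t₀ ⟨ι, hι, hy⟩
  rw [mem_coe, Multiset.mem_toFinset, mem_roots hb, IsRoot.def]
  by_contra hb0
  apply hy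
  apply norm_le_one_of_root ((cp G y).map (ι : E →+* Λ)) ((cp_monic y).map _)
  · intro i
    rw [coeff_map]
    have h1 := congrArg ι (hab i)
    rw [map_mul, map_aeval, map_aeval, hι] at h1
    have h2 := congrArg norm h1
    rw [norm_mul, norm_aeval_unit hs t₀ hb0, mul_one] at h2
    change ‖ι ((cp G y).coeff i)‖ ≤ 1
    rw [h2]
    apply norm_aeval_le hs
    exact (IsUltrametricDist.norm_add_le_max _ _).trans
      (max_le (norm_c_le hs _) (norm_s_lt hs).le)
  · have h1 : ((cp G y).map (ι : E →+* Λ)).eval (ι y) = ι ((cp G y).eval y) := by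
      rw [eval_map]
      exact Polynomial.eval₂_hom (ι : E →+* Λ) y
    rw [h1, cp_eval_self, map_zero]

end

theorem fin : S_fin := by
  intro k E Λ _ _ _ _ _ _ t s G _ hs hG y hy
  refine ((fin_le hs hG y).union (fin_le hs hG y⁻¹)).subset ?_
  rintro t₀ ⟨ι, hι, hne⟩
  by_contra hcon
  rw [Set.mem_union, not_or] at hcon
  obtain ⟨h1, h2⟩ := hcon
  have h3 : ‖ι y‖ ≤ 1 := by
    by_contra h
    exact h1 ⟨ι, hι, h⟩
  have h4 : ‖ι y⁻¹‖ ≤ 1 := by
    by_contra h
    exact h2 ⟨ι, hι, h⟩
  apply hne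
  rw [map_inv₀, norm_inv] at h4
  have h5 : 0 < ‖ι y‖ := norm_pos_iff.2 (by
    rw [Ne, map_eq_zero]
    exact hy)
  have h6 : 1 ≤ ‖ι y‖ := (inv_le_one₀ h5).1 h4
  exact le_antisymm h3 h6

theorem sum_rootMult {k : Type u} [Field k] [IsAlgClosed k] {r : k[X]} (hr : r ≠ 0)
    (S : Finset k) (hS : ∀ x, x ∉ S → r.rootMultiplicity x = 0) :
    ∑ x ∈ S, r.rootMultiplicity x = r.natDegree := by
  classical
  have h1 := IsAlgClosed.splits r
  rw [h1.natDegree_eq_card_roots]
  have h2 := Multiset.toFinset_sum_count_eq r.roots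
  rw [← h2]
  have h3 : r.roots.toFinset ⊆ S := by
    intro x hx
    by_contra hxS
    have h4 := hS x hxS
    rw [← count_roots, Multiset.count_eq_zero] at h4
    exact h4 (Multiset.mem_toFinset.1 hx)
  rw [← sum_subset h3]
  · exact sum_congr rfl fun x _ => (count_roots r).symm
  · intro x _ hx
    rw [← count_roots, Multiset.count_eq_zero]
    intro h
    exact hx (Multiset.mem_toFinset.2 h)

theorem prod_formula : S_prod := by
  classical
  intro k E Λ _ _ _ _ _ _ _ t s G _ hs hG pp S₀ y hy hu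
  obtain ⟨N, hN⟩ : ∃ N, N = ∏ g : G, (g : E ≃ₐ[k] E) y := ⟨_, rfl⟩
  have hN0 : N ≠ 0 := by
    rw [hN, prod_ne_zero_iff]
    intro g _
    rw [Ne, map_eq_zero]
    exact hy
  obtain ⟨r, q, hq, hrq⟩ := hG.rat N (by
    intro g hg
    rw [hN, map_prod]
    refine Fintype.prod_equiv (Equiv.mulLeft (⟨g, hg⟩ : G)) _ _ fun h => ?_
    rfl)
  have hr : r ≠ 0 := by
    rintro rfl
    rw [map_zero, zero_div] at hrq
    exact hN0 hrq
  have h1 : ∀ t₀, ‖pp.ι t₀ N‖ =
      Real.exp ((q.rootMultiplicity t₀ : ℝ) - r.rootMultiplicity t₀) := by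
    intro t₀
    rw [hrq, map_div₀, map_aeval, map_aeval, pp.hι, norm_div, norm_aeval hs t₀ hr,
      norm_aeval hs t₀ hq, ← Real.exp_sub]
    congr 1
    ring
  have h2 : ‖pp.ιi N‖ = Real.exp ((r.natDegree : ℝ) - q.natDegree) := by
    rw [hrq, map_div₀, map_aeval, map_aeval, pp.hιi, norm_div, norm_aeval_inf hs hr,
      norm_aeval_inf hs hq, ← Real.exp_sub]
  have h3 : ∀ t₀, (∑ g : G, (pp.u t₀ ((g : E ≃ₐ[k] E) y) : ℝ) / pp.e t₀) =
      (r.rootMultiplicity t₀ : ℝ) - q.rootMultiplicity t₀ := by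
    intro t₀
    have h4 : ‖pp.ι t₀ N‖ =
        Real.exp (-∑ g : G, (pp.u t₀ ((g : E ≃ₐ[k] E) y) : ℝ) / pp.e t₀) := by
      rw [hN, map_prod, norm_prod, ← sum_neg_distrib, Real.exp_sum]
      refine prod_congr rfl fun g _ => ?_
      rw [(pp.pl t₀).norm _ (by
        rw [Ne, map_eq_zero]
        exact hy)]
    rw [h1] at h4
    have h5 := Real.exp_injective h4
    linarith
  have h4 : r.natDegree = q.natDegree := by
    have h5 : ‖pp.ιi N‖ = 1 := by
      rw [hN, map_prod, norm_prod]
      exact prod_eq_one fun g _ => hu.2 g g.2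
    rw [h2, Real.exp_eq_one_iff] at h5
    have h6 : (r.natDegree : ℝ) = q.natDegree := by linarith
    exact_mod_cast h6
  have h5 : ∀ t₀, t₀ ∉ S₀ → r.rootMultiplicity t₀ = q.rootMultiplicity t₀ := by
    intro t₀ ht
    have h6 : ‖pp.ι t₀ N‖ = 1 := by
      rw [hN, map_prod, norm_prod]
      exact prod_eq_one fun g _ => hu.1 t₀ ht g g.2
    rw [h1, Real.exp_eq_one_iff] at h6
    have h7 : (r.rootMultiplicity t₀ : ℝ) = q.rootMultiplicity t₀ := by linarith
    exact_mod_cast h7
  rw [sum_congr rfl fun t₀ _ => h3 t₀]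
  obtain ⟨S, hS⟩ : ∃ S, S = S₀ ∪ (r.roots.toFinset ∪ q.roots.toFinset) := ⟨_, rfl⟩
  have hsub : S₀ ⊆ S := by
    rw [hS]
    exact subset_union_left
  have h6 : ∑ t₀ ∈ S₀, ((r.rootMultiplicity t₀ : ℝ) - q.rootMultiplicity t₀) =
      ∑ t₀ ∈ S, ((r.rootMultiplicity t₀ : ℝ) - q.rootMultiplicity t₀) := by
    apply sum_subset hsub
    intro x _ hx
    rw [h5 x hx, sub_self]
  rw [h6, sum_sub_distrib]
  have h7 := sum_rootMult hr S (by
    intro x hx
    rw [← count_roots, Multiset.count_eq_zero]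
    intro h
    apply hx
    rw [hS]
    simp only [mem_union, Multiset.mem_toFinset]
    tauto)
  have h8 := sum_rootMult hq S (by
    intro x hx
    rw [← count_roots, Multiset.count_eq_zero]
    intro h
    apply hx
    rw [hS]
    simp only [mem_union, Multiset.mem_toFinset]
    tauto)
  have h9 : (∑ x ∈ S, (r.rootMultiplicity x : ℝ)) = r.natDegree := by
    rw [← h7]
    push_cast
    rfl
  have h10 : (∑ x ∈ S, (q.rootMultiplicity x : ℝ)) = q.natDegree := by
    rw [← h8]
    push_cast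
    rfl
  rw [h9, h10, h4, sub_self]

theorem const : S_const := by
  classical
  intro k E Λ _ _ _ _ _ _ _ t s G _ hs hG pp y hy
  have hc : ∀ i, ∃ c : k, (cp G y).coeff i = algebraMap k E c := by
    intro i
    obtain ⟨r, q, hq, hrq⟩ := cp_coeff hG y i
    by_cases hr : r = 0
    · refine ⟨0, ?_⟩
      rw [hrq, hr, map_zero, zero_div, map_zero]
    have hq' : ∀ t₀, q.rootMultiplicity t₀ ≤ r.rootMultiplicity t₀ := by
      intro t₀
      have h1 : ‖pp.ι t₀ ((cp G y).coeff i)‖ ≤ 1 := by
        have h2 := congrArg (fun P => P.coeff i) (map_cp (G := G) (pp.ι t₀) y)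
        simp only [coeff_map] at h2
        have h3 : ‖(∏ g : G, (X - C ((pp.ι t₀) ((g : E ≃ₐ[k] E) y)))).coeff i‖ ≤ 1 :=
          coeff_prod_le univ (fun g : G => pp.ι t₀ ((g : E ≃ₐ[k] E) y))
            (fun g _ => hy.1 t₀ (notMem_empty _) g g.2) i
        rw [← h2] at h3
        exact h3
      rw [hrq, map_div₀, map_aeval, map_aeval, pp.hι, norm_div, norm_aeval hs t₀ hr,
        norm_aeval hs t₀ hq, ← Real.exp_sub, Real.exp_le_one_iff] at h1
      have h2 : (q.rootMultiplicity t₀ : ℝ) ≤ r.rootMultiplicity t₀ := by linarith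
      exact_mod_cast h2
    have hdeg : r.natDegree ≤ q.natDegree := by
      have h1 : ‖pp.ιi ((cp G y).coeff i)‖ ≤ 1 := by
        have h2 := congrArg (fun P => P.coeff i) (map_cp (G := G) pp.ιi y)
        simp only [coeff_map] at h2
        have h3 : ‖(∏ g : G, (X - C (pp.ιi ((g : E ≃ₐ[k] E) y)))).coeff i‖ ≤ 1 :=
          coeff_prod_le univ (fun g : G => pp.ιi ((g : E ≃ₐ[k] E) y))
            (fun g _ => hy.2 g g.2) i
        rw [← h2] at h3
        exact h3
      rw [hrq, map_div₀, map_aeval, map_aeval, pp.hιi, norm_div, norm_aeval_inf hs hr,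
        norm_aeval_inf hs hq, ← Real.exp_sub, Real.exp_le_one_iff] at h1
      have h2 : (r.natDegree : ℝ) ≤ q.natDegree := by linarith
      exact_mod_cast h2
    have hdvd : q ∣ r := by
      have h1 : q.roots ≤ r.roots := by
        rw [Multiset.le_iff_count]
        intro a
        rw [count_roots, count_roots]
        exact hq' a
      exact (IsAlgClosed.splits q).dvd_of_roots_le_roots hq h1
    obtain ⟨c, hc⟩ := hdvd
    have hc0 : c ≠ 0 := by
      rintro rfl
      rw [mul_zero] at hc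
      exact hr hc
    have hcd : c.natDegree = 0 := by
      have h1 := congrArg natDegree hc
      rw [natDegree_mul hq hc0] at h1
      omega
    rw [natDegree_eq_zero] at hcd
    obtain ⟨a, ha⟩ := hcd
    refine ⟨a, ?_⟩
    rw [hrq, hc, ← ha, map_mul, aeval_C, mul_comm, mul_div_assoc, div_self (aeval_t_ne hG hq),
      mul_one]
  choose c hc using hc
  obtain ⟨P, hP⟩ : ∃ P : k[X], P.map (algebraMap k E) = cp G y := by
    refine ⟨∑ i ∈ range ((cp G y).natDegree + 1), C (c i) * X ^ i, ?_⟩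
    rw [Polynomial.map_sum]
    have h1 : ∀ i, (C (c i) * X ^ i : k[X]).map (algebraMap k E) = C ((cp G y).coeff i) * X ^ i := by
      intro i
      rw [Polynomial.map_mul, map_C, Polynomial.map_pow, map_X, hc]
    rw [sum_congr rfl fun i _ => h1 i]
    exact (as_sum_range_C_mul_X_pow _).symm
  have hPm : P ≠ 0 := by
    rintro rfl
    rw [Polynomial.map_zero] at hP
    exact (cp_monic (G := G) y).ne_zero hP.symm
  have h1 : aeval y P = 0 := by
    rw [aeval_def, ← eval_map, hP, cp_eval_self]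
  have h2 := (IsAlgClosed.splits P).eq_prod_roots
  rw [h2, map_mul, aeval_C, map_multiset_prod, Multiset.map_map] at h1
  rcases mul_eq_zero.1 h1 with h3 | h3
  · exfalso
    rw [map_eq_zero] at h3
    exact hPm (leadingCoeff_eq_zero.1 h3)
  · rw [Multiset.prod_eq_zero_iff, Multiset.mem_map] at h3
    obtain ⟨a, -, ha⟩ := h3
    refine ⟨a, ?_⟩
    rw [Function.comp_apply, map_sub, aeval_X, aeval_C] at ha
    exact sub_eq_zero.1 ha

end Pool.Agent.Q275.SU
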