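import Mathlib
import Pool.Agent.Q275.SU.Pl1

/-!
# Project SU (helper41): job F3 (places)
-/

set_option linter.unusedSectionVars false
set_option linter.unusedVariables false

namespace Pool.Agent.Q275.SU

open Finset Polynomial Pool.Agent.Q41.SU

universe u

/-- in a vanishing sum of an ultrametric field two different nonzero terms have the same norm -/
theorem two_terms {Λ : Type*} [NormedField Λ] [IsUltrametricDist Λ] (S : Finset ℕ) (f : ℕ → Λ)
    (h0 : ∑ i ∈ S, f i = 0) (hne : ∃ i ∈ S, f i ≠ 0) :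
    ∃ i ∈ S, ∃ j ∈ S, i < j ∧ f i ≠ 0 ∧ f j ≠ 0 ∧ ‖f i‖ = ‖f j‖ := by
  classical
  obtain ⟨i1, hi1, hf1⟩ := hne
  obtain ⟨i, hi, hmax⟩ := exists_max_image S (fun i => ‖f i‖) ⟨i1, hi1⟩
  have hfi : f i ≠ 0 := by
    intro h
    have h1 := hmax i1 hi1
    simp only [h, norm_zero] at h1
    exact hf1 (norm_le_zero_iff.1 h1)
  have h1 : ∃ j ∈ S, j ≠ i ∧ ‖f j‖ = ‖f i‖ := by
    by_contra hcon
    push Not at hcon
    rw [← add_sum_erase S f hi] at h0
    have h2 : f i = -∑ x ∈ S.erase i, f x := eq_neg_of_add_eq_zero_left h0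
    by_cases hS : (S.erase i).Nonempty
    · obtain ⟨j, hj, hj'⟩ := exists_max_image (S.erase i) (fun i => ‖f i‖) hS
      have h3 : ‖∑ x ∈ S.erase i, f x‖ ≤ ‖f j‖ :=
        IsUltrametricDist.norm_sum_le_of_forall_le_of_nonneg (norm_nonneg _) hj'
      have h4 : ‖f i‖ ≤ ‖f j‖ := by
        rw [h2, norm_neg]
        exact h3
      have h5 := mem_erase.1 hj
      exact hcon j h5.2 h5.1 (le_antisymm (hmax j h5.2) h4)
    · rw [not_nonempty_iff_eq_empty] at hS
      rw [hS, sum_empty, neg_zero] at h2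
      exact hfi h2
  obtain ⟨j, hj, hji, hnorm⟩ := h1
  have hfj : f j ≠ 0 := by
    rw [← norm_pos_iff, hnorm]
    exact norm_pos_iff.2 hfi
  rcases lt_or_gt_of_ne hji with h | h
  · exact ⟨j, hj, i, hi, h, hfj, hfi, hnorm⟩
  · exact ⟨i, hi, j, hj, h, hfi, hfj, hnorm.symm⟩

section

variable {k E Λ : Type u} [Field k] [Field E] [Algebra k E] [NormedField Λ] [IsUltrametricDist Λ]
  [Algebra k Λ] {t : E} {s : Λ} {G : Subgroup (E ≃ₐ[k] E)} [Fintype G]

/-- an integral polynomial relation -/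
theorem rel (hG : IsGal k t G) (x : E) :
    ∃ a : ℕ → k[X], a (Fintype.card G) ≠ 0 ∧
      ∑ i ∈ range (Fintype.card G + 1), aeval t (a i) * x ^ i = 0 := by
  obtain ⟨b, a, hb, hab⟩ := common hG x
  refine ⟨a, ?_, ?_⟩
  · intro h3
    have h4 := hab (Fintype.card G)
    rw [h3, map_zero] at h4
    have h5 : (cp G x).coeff (Fintype.card G) = 1 := by
      have h6 := (cp_monic (G := G) x).coeff_natDegree
      rwa [cp_natDegree] at h6
    rw [h5, one_mul] at h4
    exact aeval_t_ne hG hb h4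
  · have h2 : ∀ i, aeval t (a i) * x ^ i = aeval t b * ((cp G x).coeff i * x ^ i) := by
      intro i
      rw [← hab]
      ring
    rw [sum_congr rfl fun i _ => h2 i, ← mul_sum]
    have h3 : ∑ i ∈ range (Fintype.card G + 1), (cp G x).coeff i * x ^ i = (cp G x).eval x := by
      rw [eval_eq_sum_range, cp_natDegree]
    rw [h3, cp_eval_self, mul_zero]

theorem rel_map (hG : IsGal k t G) (x : E) (ι : E →ₐ[k] Λ) :
    ∃ a : ℕ → k[X], a (Fintype.card G) ≠ 0 ∧
      ∑ i ∈ range (Fintype.card G + 1), aeval (ι t) (a i) * ι x ^ i = 0 := by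
  obtain ⟨a, ha, h⟩ := rel hG x
  refine ⟨a, ha, ?_⟩
  have h1 := congrArg ι h
  rw [map_sum, map_zero] at h1
  rw [← h1]
  refine sum_congr rfl fun i _ => ?_
  rw [map_mul, map_pow, map_aeval]

/-- the values are in `(1 / ν!) ℤ` -/
theorem value (hs : IsAmb k Λ s) (hG : IsGal k t G) {t₀ : k} {ι : E →ₐ[k] Λ}
    (hι : ι t = algebraMap k Λ t₀ + s) {x : E} (hx : x ≠ 0) :
    ∃ n : ℤ, ‖ι x‖ = Real.exp (-((n : ℝ) / (Fintype.card G).factorial)) := by
  obtain ⟨a, ha, h⟩ := rel_map hG x ι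
  have hx0 : ι x ≠ 0 := by
    rw [Ne, map_eq_zero]
    exact hx
  have hpos : 0 < ‖ι x‖ := norm_pos_iff.2 hx0
  obtain ⟨i, hi, j, hj, hij, hfi, hfj, hn⟩ := two_terms _ _ h
    ⟨Fintype.card G, by simp, mul_ne_zero (by rw [hι]; exact aeval_ne hs t₀ ha)
      (pow_ne_zero _ hx0)⟩
  have hai : a i ≠ 0 := by
    intro h0
    rw [h0, map_zero, zero_mul] at hfi
    exact hfi rfl
  have haj : a j ≠ 0 := by
    intro h0
    rw [h0, map_zero, zero_mul] at hfj
    exact hfj rfl
  rw [norm_mul, norm_mul, norm_pow, norm_pow, hι, norm_aeval hs t₀ hai, norm_aeval hs t₀ haj] at hn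
  have hlog := congrArg Real.log hn
  rw [Real.log_mul (Real.exp_pos _).ne' (pow_pos hpos _).ne',
    Real.log_mul (Real.exp_pos _).ne' (pow_pos hpos _).ne', Real.log_exp, Real.log_exp,
    Real.log_pow, Real.log_pow] at hlog
  have hjν : j ≤ Fintype.card G := by
    rw [mem_range] at hj
    omega
  obtain ⟨c, hc⟩ : (j - i) ∣ (Fintype.card G).factorial :=
    Nat.dvd_factorial (by omega) (by omega)
  refine ⟨(c : ℤ) * (((a i).rootMultiplicity t₀ : ℤ) - (a j).rootMultiplicity t₀), ?_⟩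
  rw [← Real.exp_log hpos]
  congr 1
  have hcR : ((Fintype.card G).factorial : ℝ) = ((j : ℝ) - i) * c := by
    rw [hc, Nat.cast_mul, Nat.cast_sub hij.le]
  have hji : (0 : ℝ) < (j : ℝ) - i := by
    have : (i : ℝ) < j := by exact_mod_cast hij
    linarith
  have hc0 : (0 : ℝ) < c := by
    have h1 : 0 < (Fintype.card G).factorial := Nat.factorial_pos _
    rw [hc] at h1
    have h2 : 0 < c := Nat.pos_of_mul_pos_left h1
    exact_mod_cast h2
  rw [hcR]
  push_cast
  rw [eq_neg_iff_add_eq_zero]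
  field_simp
  linarith

/-- the residue field is `k` -/
theorem digit [IsAlgClosed k] (hs : IsAmb k Λ s) (hG : IsGal k t G) {t₀ : k} {ι : E →ₐ[k] Λ}
    (hι : ι t = algebraMap k Λ t₀ + s) (x : E) (hx : ‖ι x‖ ≤ 1) :
    ∃ c : k, ‖ι x - algebraMap k Λ c‖ < 1 := by
  classical
  obtain ⟨a, ha, h⟩ := rel_map hG x ι
  obtain ⟨I, hI⟩ : ∃ I, I = (range (Fintype.card G + 1)).filter fun i => a i ≠ 0 := ⟨_, rfl⟩
  have hIne : I.Nonempty := ⟨Fintype.card G, by
    rw [hI, mem_filter]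
    exact ⟨by simp, ha⟩⟩
  obtain ⟨i0, hi0, hmin⟩ := exists_min_image I (fun i => (a i).rootMultiplicity t₀) hIne
  obtain ⟨m, hm⟩ : ∃ m, m = (a i0).rootMultiplicity t₀ := ⟨_, rfl⟩
  have hdiv : ∀ i, i ∈ range (Fintype.card G + 1) → ∃ b : k[X], a i = (X - C t₀) ^ m * b := by
    intro i hi
    by_cases h0 : a i = 0
    · exact ⟨0, by rw [h0, mul_zero]⟩
    · have h1 : m ≤ (a i).rootMultiplicity t₀ := by
        rw [hm]
        apply hmin
        rw [hI, mem_filter]
        exact ⟨hi, h0⟩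
      exact (le_rootMultiplicity_iff h0).1 h1
  choose! b hb using hdiv
  have hi0' : i0 ∈ range (Fintype.card G + 1) ∧ a i0 ≠ 0 := by
    rw [hI, mem_filter] at hi0
    exact hi0
  have hb0 : (b i0).eval t₀ ≠ 0 := by
    intro h0
    have h1 : (X - C t₀) ∣ b i0 := dvd_iff_isRoot.2 h0
    obtain ⟨c, hc⟩ := h1
    have h2 : (X - C t₀) ^ (m + 1) ∣ a i0 := by
      refine ⟨c, ?_⟩
      rw [hb i0 hi0'.1, hc, pow_succ]
      ring
    have h3 := (le_rootMultiplicity_iff hi0'.2).2 h2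
    omega
  have hrel : ∑ i ∈ range (Fintype.card G + 1), aeval (ι t) (b i) * ι x ^ i = 0 := by
    have h1 : ∀ i ∈ range (Fintype.card G + 1), aeval (ι t) (a i) * ι x ^ i =
        s ^ m * (aeval (ι t) (b i) * ι x ^ i) := by
      intro i hi
      rw [hb i hi, map_mul, map_pow, map_sub, aeval_X, aeval_C, hι, add_sub_cancel_left]
      ring
    rw [sum_congr rfl h1, ← mul_sum] at h
    exact (mul_eq_zero.1 h).resolve_left (pow_ne_zero _ (s_ne hs))
  obtain ⟨B, hB⟩ : ∃ B : k[X], B = ∑ i ∈ range (Fintype.card G + 1), C ((b i).eval t₀) * X ^ i :=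
    ⟨_, rfl⟩
  have hBne : B ≠ 0 := by
    intro h0
    have h1 := congrArg (fun P => P.coeff i0) h0
    rw [hB] at h1
    simp only [finsetSum_coeff, coeff_C_mul, coeff_X_pow, coeff_zero] at h1
    rw [sum_eq_single i0] at h1
    · rw [if_pos rfl, mul_one] at h1
      exact hb0 h1
    · intro i _ hi
      rw [if_neg (Ne.symm hi), mul_zero]
    · intro h2
      exact absurd hi0'.1 h2
  have hBx : ‖aeval (ι x) B‖ < 1 := by
    have h1 : aeval (ι x) B = ∑ i ∈ range (Fintype.card G + 1),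
        algebraMap k Λ ((b i).eval t₀) * ι x ^ i := by
      rw [hB, map_sum]
      refine sum_congr rfl fun i _ => ?_
      rw [map_mul, aeval_C, map_pow, aeval_X]
    have h2 : aeval (ι x) B = -∑ i ∈ range (Fintype.card G + 1),
        (aeval (ι t) (b i) - algebraMap k Λ ((b i).eval t₀)) * ι x ^ i := by
      rw [h1, eq_neg_iff_add_eq_zero, ← sum_add_distrib, ← hrel]
      refine sum_congr rfl fun i _ => ?_
      ring
    rw [h2, norm_neg]
    obtain ⟨j, hj, hj'⟩ := IsUltrametricDist.exists_norm_finsetSum_le_of_nonempty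
      (⟨0, by simp⟩ : (range (Fintype.card G + 1)).Nonempty)
      (fun i => (aeval (ι t) (b i) - algebraMap k Λ ((b i).eval t₀)) * ι x ^ i)
    refine hj'.trans_lt ?_
    rw [norm_mul, norm_pow, hι]
    calc ‖aeval (algebraMap k Λ t₀ + s) (b j) - algebraMap k Λ ((b j).eval t₀)‖ * ‖ι x‖ ^ j
        ≤ ‖aeval (algebraMap k Λ t₀ + s) (b j) - algebraMap k Λ ((b j).eval t₀)‖ * 1 := by
          gcongr
          exact pow_le_one₀ (norm_nonneg _) hx
    _ < 1 := by
      rw [mul_one]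
      exact aeval_close hs t₀ (b j)
  have hsp := (IsAlgClosed.splits B).eq_prod_roots
  rw [hsp, map_mul, aeval_C, map_multiset_prod, Multiset.map_map, norm_mul,
    hs.norm_c _ (leadingCoeff_ne_zero.2 hBne), one_mul] at hBx
  by_contra hcon
  push Not at hcon
  have h1 : ∀ S : Multiset k,
      1 ≤ ‖(Multiset.map (⇑(aeval (ι x)) ∘ fun a : k => (X - C a : k[X])) S).prod‖ := by
    intro S
    induction S using Multiset.induction_on with
    | empty => simp
    | cons c S ih =>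
      rw [Multiset.map_cons, Multiset.prod_cons, norm_mul, Function.comp_apply, map_sub, aeval_X,
        aeval_C]
      exact one_le_mul_of_one_le_of_one_le (hcon c) ih
  exact absurd hBx (not_lt.2 (h1 _))

end

theorem pl : S_pl := by
  classical
  intro k E Λ _ _ _ _ _ _ _ t s G _ hs hG t₀ ι hι
  obtain ⟨F, hF⟩ : ∃ F : ℕ, F = (Fintype.card G).factorial := ⟨_, rfl⟩
  have hF0 : 0 < F := by
    rw [hF]
    exact Nat.factorial_pos _
  have hFR : (0 : ℝ) < F := by exact_mod_cast hF0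
  have hval : ∀ x : E, x ≠ 0 → ∃ n : ℤ, ‖ι x‖ = Real.exp (-((n : ℝ) / F)) := by
    intro x hx
    rw [hF]
    exact value hs hG hι hx
  let H : AddSubgroup ℤ :=
    { carrier := {n | ∃ x : E, x ≠ 0 ∧ ‖ι x‖ = Real.exp (-((n : ℝ) / F))}
      zero_mem' := ⟨1, one_ne_zero, by simp⟩
      add_mem' := by
        rintro a b ⟨x, hx, hx'⟩ ⟨y, hy, hy'⟩
        refine ⟨x * y, mul_ne_zero hx hy, ?_⟩
        rw [map_mul, norm_mul, hx', hy', ← Real.exp_add]
        congr 1
        push_cast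
        ring
      neg_mem' := by
        rintro a ⟨x, hx, hx'⟩
        refine ⟨x⁻¹, inv_ne_zero hx, ?_⟩
        rw [map_inv₀, norm_inv, hx', ← Real.exp_neg]
        congr 1
        push_cast
        ring }
  have hHmem : ∀ n : ℤ, n ∈ H ↔ ∃ x : E, x ≠ 0 ∧ ‖ι x‖ = Real.exp (-((n : ℝ) / F)) := fun n =>
    Iff.rfl
  have hFmem : (F : ℤ) ∈ H := by
    rw [hHmem]
    refine ⟨t - algebraMap k E t₀, ?_, ?_⟩
    · intro h0
      have h1 := congrArg ι h0
      rw [map_sub, hι, AlgHom.commutes, add_sub_cancel_left, map_zero] at h1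
      exact s_ne hs h1
    · rw [map_sub, hι, AlgHom.commutes, add_sub_cancel_left, hs.norm_s]
      congr 1
      rw [Int.cast_natCast, div_self hFR.ne']
  obtain ⟨a0, ha0⟩ := Int.subgroup_cyclic H
  obtain ⟨a, ha⟩ : ∃ a : ℕ, a = a0.natAbs := ⟨_, rfl⟩
  have hdvd : ∀ n : ℤ, n ∈ H ↔ (a : ℤ) ∣ n := by
    intro n
    rw [ha0, AddSubgroup.mem_closure_singleton, ha, Int.natAbs_dvd]
    constructor
    · rintro ⟨c, hc⟩
      exact ⟨c, by rw [← hc, smul_eq_mul, mul_comm]⟩
    · rintro ⟨c, hc⟩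
      exact ⟨c, by rw [hc, smul_eq_mul, mul_comm]⟩
  obtain ⟨e, he⟩ : a ∣ F := by
    have h1 := (hdvd _).1 hFmem
    exact_mod_cast h1
  have ha1 : 0 < a := by
    rw [he] at hF0
    exact Nat.pos_of_mul_pos_right hF0
  have he1 : 0 < e := by
    rw [he] at hF0
    exact Nat.pos_of_mul_pos_left hF0
  have haR : (0 : ℝ) < a := by exact_mod_cast ha1
  have heR : (0 : ℝ) < e := by exact_mod_cast he1
  have hFe : (F : ℝ) = a * e := by
    rw [he]
    push_cast
    rfl
  have hval' : ∀ x : E, ∃ n : ℤ, x ≠ 0 → ‖ι x‖ = Real.exp (-((n : ℝ) / e)) := by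
    intro x
    by_cases hx : x = 0
    · exact ⟨0, fun h => absurd hx h⟩
    · obtain ⟨n, hn⟩ := hval x hx
      obtain ⟨c, hc⟩ := (hdvd n).1 ⟨x, hx, hn⟩
      refine ⟨c, fun _ => ?_⟩
      rw [hn, hc, hFe]
      congr 1
      push_cast
      field_simp
  choose u hu using hval'
  refine ⟨e, u, ?_, he1, fun x hx => hu x hx, ?_, fun x hx => digit hs hG hι x hx⟩
  · rw [← hF, he]
    exact Nat.le_mul_of_pos_left _ ha1
  · obtain ⟨x, hx, hx'⟩ := (hHmem a).1 ((hdvd a).2 dvd_rfl)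
    refine ⟨x, hx, ?_⟩
    rw [hu x hx] at hx'
    have h1 := Real.exp_injective hx'
    rw [hFe] at h1
    have h2 : (u x : ℝ) = 1 := by
      field_simp at h1
      push_cast at h1
      have h3 : (u x : ℝ) * a = a := by linarith
      field_simp at h3
      linarith
    exact_mod_cast h2

end Pool.Agent.Q275.SU
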